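import Pool.Agent.Helper10_BAN.Stmt

/-!
Squad BAN (MP_592924_gt), module POLY: the volume integrals are polynomials along lines.
-/

set_option autoImplicit false

namespace Pool.Agent.BAN.H7

open MeasureTheory Filter Topology Set
open scoped NNReal

/-- a parameter integral of polynomials of bounded degree is a polynomial -/
theorem poly_integral {α : Type*} [MeasurableSpace α] (μ : Measure α) (f : α → ℝ → ℝ) (d : ℕ)
    (hp : ∀ᵐ x ∂μ, ∃ p : Polynomial ℝ, p.natDegree ≤ d ∧ ∀ t, f x t = p.eval t)
    (hi : ∀ t, Integrable (fun x => f x t) μ) :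
    ∃ P : Polynomial ℝ, ∀ t, ∫ x, f x t ∂μ = P.eval t := by
  classical
  set s : Finset ℕ := Finset.range (d + 1) with hs
  set v : ℕ → ℝ := fun n => (n : ℝ) with hv
  have hvi : Set.InjOn v s := fun a _ b _ h => Nat.cast_injective h
  have hpt : ∀ t : ℝ, ∀ᵐ x ∂μ, f x t = ∑ j ∈ s, f x (v j) * (Lagrange.basis s v j).eval t := by
    intro t
    filter_upwards [hp] with x hx
    obtain ⟨p, hpd, hpf⟩ := hx
    have hdeg : p.degree < s.card := by
      rw [hs, Finset.card_range]
      refine (Polynomial.degree_le_natDegree).trans_lt ?_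
      exact_mod_cast Nat.lt_succ_of_le hpd
    have h1 := Lagrange.eq_interpolate hvi hdeg
    have h2 := congrArg (Polynomial.eval t) h1
    rw [hpf t, h2, Lagrange.interpolate_apply, Polynomial.eval_finsetSum]
    refine Finset.sum_congr rfl fun j _ => ?_
    rw [Polynomial.eval_mul, Polynomial.eval_C, hpf]
  refine ⟨∑ j ∈ s, Polynomial.C (∫ x, f x (v j) ∂μ) * Lagrange.basis s v j, fun t => ?_⟩
  rw [integral_congr_ae (hpt t), integral_finsetSum _ fun j _ => (hi (v j)).mul_const _,
    Polynomial.eval_finsetSum]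
  refine Finset.sum_congr rfl fun j _ => ?_
  rw [integral_mul_const, Polynomial.eval_mul, Polynomial.eval_C]

/-- the determinant along a line is a polynomial -/
theorem det_poly {E : Type} [NormedAddCommGroup E] [NormedSpace ℝ E] [FiniteDimensional ℝ E]
    (A B : E →L[ℝ] E) : ∃ p : Polynomial ℝ, p.natDegree ≤ Module.finrank ℝ E ∧
      ∀ t : ℝ, (A + t • B).det = p.eval t := by
  classical
  set b := Module.finBasis ℝ E
  set MA := LinearMap.toMatrix b b (A : E →ₗ[ℝ] E) with hMA
  set MB := LinearMap.toMatrix b b (B : E →ₗ[ℝ] E) with hMB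
  refine ⟨((Polynomial.X : Polynomial ℝ) • MB.map Polynomial.C + MA.map Polynomial.C).det, ?_,
    fun t => ?_⟩
  · have := Polynomial.natDegree_det_X_add_C_le MB MA
    rwa [Fintype.card_fin] at this
  · have h1 : (A + t • B).det = (MA + t • MB).det := by
      change LinearMap.det ((A + t • B : E →L[ℝ] E) : E →ₗ[ℝ] E) = _
      rw [← LinearMap.det_toMatrix b]
      congr 1
      rw [hMA, hMB, ← map_smul, ← map_add]
      rfl
    rw [h1, ← Polynomial.coe_evalRingHom, RingHom.map_det]
    congr 1
    ext i j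
    simp only [RingHom.mapMatrix_apply, Matrix.map_apply, Matrix.add_apply, Matrix.smul_apply,
      smul_eq_mul, Polynomial.coe_evalRingHom, Polynomial.eval_add, Polynomial.eval_mul,
      Polynomial.eval_X, Polynomial.eval_C]
    ring

/-- the norm along a line -/
theorem norm_poly {E : Type} [NormedAddCommGroup E] [InnerProductSpace ℝ E] (a b : E) (i : ℕ) :
    ∃ p : Polynomial ℝ, p.natDegree ≤ 2 * i ∧ ∀ t : ℝ, ‖a + t • b‖ ^ (2 * i) = p.eval t := by
  refine ⟨(Polynomial.C (‖b‖ ^ 2) * Polynomial.X ^ 2 + Polynomial.C (2 * inner ℝ a b) *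
    Polynomial.X + Polynomial.C (‖a‖ ^ 2)) ^ i, ?_, fun t => ?_⟩
  · refine (Polynomial.natDegree_pow_le).trans ?_
    rw [mul_comm]
    exact Nat.mul_le_mul_right i Polynomial.natDegree_quadratic_le
  · rw [pow_mul, norm_add_sq_real, norm_smul, inner_smul_right]
    simp only [Polynomial.eval_pow, Polynomial.eval_add, Polynomial.eval_mul, Polynomial.eval_C,
      Polynomial.eval_X]
    congr 1
    rw [mul_pow, Real.norm_eq_abs, sq_abs]
    ring

/-- POLY -/
theorem poly : POLYStmt := by
  intro E _ _ _ _ _ μ _ A B w L c S hc hA hB hw hS hwS i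
  have hlip : ∀ t : ℝ, LipschitzWith (L + ‖t‖₊ * L) (fun y => A y + t • B y) := by
    intro t
    have h1 : LipschitzWith (‖t‖₊ * L) (fun y => t • B y) := by
      refine LipschitzWith.of_dist_le_mul fun x y => ?_
      rw [dist_smul₀, NNReal.coe_mul, coe_nnnorm, mul_assoc]
      exact mul_le_mul_of_nonneg_left (hB.dist_le_mul x y) (norm_nonneg _)
    exact hA.add h1
  refine poly_integral (μ.restrict S) (fun x t => ‖A x + t • B x‖ ^ (2 * i) *
    max 0 (1 - w x) * (fderiv ℝ (fun y => A y + t • B y) x).det)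
    (2 * i + Module.finrank ℝ E) ?_ ?_
  · have h1 : ∀ᵐ x ∂(μ.restrict S), DifferentiableAt ℝ A x :=
      ae_restrict_of_ae hA.ae_differentiableAt
    have h2 : ∀ᵐ x ∂(μ.restrict S), DifferentiableAt ℝ B x :=
      ae_restrict_of_ae hB.ae_differentiableAt
    filter_upwards [h1, h2] with x hx1 hx2
    obtain ⟨p, hp1, hp2⟩ := norm_poly (A x) (B x) i
    obtain ⟨q, hq1, hq2⟩ := det_poly (fderiv ℝ A x) (fderiv ℝ B x)
    refine ⟨Polynomial.C (max 0 (1 - w x)) * (p * q), ?_, fun t => ?_⟩
    · refine (Polynomial.natDegree_C_mul_le _ _).trans ?_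
      exact (Polynomial.natDegree_mul_le).trans (add_le_add hp1 hq1)
    · have h3 : fderiv ℝ (fun y => A y + t • B y) x = fderiv ℝ A x + t • fderiv ℝ B x := by
        have h4 : DifferentiableAt ℝ (fun y => t • B y) x := hx2.const_smul t
        rw [fderiv_fun_add hx1 h4, fderiv_fun_const_smul hx2]
      rw [h3, hp2, hq2, Polynomial.eval_mul, Polynomial.eval_mul, Polynomial.eval_C]
      ring
  · intro t
    set K : Set E := Metric.closedBall (0 : E) (1 / c) with hK
    set F : E → ℝ := fun x => ‖A x + t • B x‖ ^ (2 * i) *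
      max 0 (1 - w x) * (fderiv ℝ (fun y => A y + t • B y) x).det with hF
    have hFm : Measurable F := by
      rw [hF]
      have h1 : Measurable (fun x => ‖A x + t • B x‖ ^ (2 * i) * max 0 (1 - w x)) := by
        have : Continuous (fun x => ‖A x + t • B x‖ ^ (2 * i) * max 0 (1 - w x)) := by
          have := hA.continuous
          have := hB.continuous
          fun_prop
        exact this.measurable
      refine h1.mul ?_
      exact ContinuousLinearMap.continuous_det.measurable.comp (measurable_fderiv ℝ _)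
    have hcomp : IsCompact K := isCompact_closedBall 0 _
    obtain ⟨M1, hM1⟩ : ∃ M : ℝ, ∀ x ∈ K, |‖A x + t • B x‖ ^ (2 * i) * max 0 (1 - w x)| ≤ M := by
      have h1 : Continuous (fun x => ‖A x + t • B x‖ ^ (2 * i) * max 0 (1 - w x)) := by
        have := hA.continuous
        have := hB.continuous
        fun_prop
      obtain ⟨M, hM⟩ := hcomp.exists_bound_of_continuousOn h1.continuousOn
      exact ⟨M, fun x hx => hM x hx⟩
    obtain ⟨M2, hM2⟩ : ∃ M : ℝ, ∀ x, |(fderiv ℝ (fun y => A y + t • B y) x).det| ≤ M := by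
      have h1 : IsCompact (Metric.closedBall (0 : E →L[ℝ] E) ((L + ‖t‖₊ * L : ℝ≥0) : ℝ)) :=
        isCompact_closedBall 0 _
      obtain ⟨M, hM⟩ := h1.exists_bound_of_continuousOn
        (ContinuousLinearMap.continuous_det (𝕜 := ℝ) (E := E)).continuousOn
      refine ⟨M, fun x => ?_⟩
      refine hM _ ?_
      rw [mem_closedBall_zero_iff]
      exact norm_fderiv_le_of_lipschitz ℝ (hlip t)
    have hM10 : 0 ≤ M1 := by
      refine (abs_nonneg _).trans (hM1 0 ?_)
      rw [hK]
      exact Metric.mem_closedBall_self (by positivity)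
    have hsupp : ∀ x ∈ S, x ∉ K → F x = 0 := by
      intro x hxS hxK
      rw [hK, mem_closedBall_zero_iff, not_le, div_lt_iff₀ hc] at hxK
      have h1 := hwS x hxS
      have h2 : max 0 (1 - w x) = 0 := max_eq_left (by linarith)
      change ‖A x + t • B x‖ ^ (2 * i) * max 0 (1 - w x) * _ = 0
      rw [h2, mul_zero, zero_mul]
    have hint : Integrable (K.indicator fun _ => M1 * M2) (μ.restrict S) := by
      have h1 : Integrable (K.indicator fun _ => M1 * M2) μ := by
        rw [integrable_indicator_iff Metric.isClosed_closedBall.measurableSet]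
        exact integrableOn_const hcomp.measure_lt_top.ne
      exact h1.restrict
    refine hint.mono' hFm.aestronglyMeasurable ?_
    rw [ae_restrict_iff' hS]
    refine Eventually.of_forall fun x hxS => ?_
    by_cases hxK : x ∈ K
    · rw [Set.indicator_of_mem hxK, Real.norm_eq_abs]
      change |‖A x + t • B x‖ ^ (2 * i) * max 0 (1 - w x) * _| ≤ _
      rw [abs_mul]
      exact mul_le_mul (hM1 x hxK) (hM2 x) (abs_nonneg _) hM10
    · rw [Set.indicator_of_notMem hxK, hsupp x hxS hxK, norm_zero]

end Pool.Agent.BAN.H7
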