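import Pool.Agent.Helper10_BAN.Stmt

/-!
Squad BAN (MP_592924_gt), module SCAL: the volume formula.
-/

set_option autoImplicit false

namespace Pool.Agent.BAN.H7

open MeasureTheory Filter Topology Set
open scoped NNReal Pointwise

theorem hom_bounds {E : Type} [NormedAddCommGroup E] [NormedSpace ℝ E] [FiniteDimensional ℝ E]
    {Φ : E → ℝ} (hc : Continuous Φ) (hp : ∀ x, x ≠ 0 → 0 < Φ x)
    (hh : ∀ (t : ℝ) (x : E), Φ (t • x) = |t| * Φ x) :
    ∃ c C : ℝ, 0 < c ∧ 0 < C ∧ ∀ x, c * ‖x‖ ≤ Φ x ∧ Φ x ≤ C * ‖x‖ := by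
  have h0 : Φ 0 = 0 := by
    have := hh 0 0
    simpa using this
  rcases subsingleton_or_nontrivial E with hs | hn
  · refine ⟨1, 1, one_pos, one_pos, fun x => ?_⟩
    rw [Subsingleton.elim x 0, h0, norm_zero]
    simp
  · have hne : (Metric.sphere (0 : E) 1).Nonempty := NormedSpace.sphere_nonempty.2 zero_le_one
    have hcp : IsCompact (Metric.sphere (0 : E) 1) := isCompact_sphere 0 1
    obtain ⟨a, ha, hamin⟩ := hcp.exists_isMinOn hne hc.continuousOn
    obtain ⟨b, hb, hbmax⟩ := hcp.exists_isMaxOn hne hc.continuousOn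
    have ha0 : a ≠ 0 := by
      rintro rfl
      simp at ha
    have hb0 : b ≠ 0 := by
      rintro rfl
      simp at hb
    refine ⟨Φ a, Φ b, hp a ha0, hp b hb0, fun x => ?_⟩
    rcases eq_or_ne x 0 with rfl | hx
    · rw [h0, norm_zero]
      simp
    · have hx0 : 0 < ‖x‖ := norm_pos_iff.2 hx
      have h1 : ‖x‖⁻¹ • x ∈ Metric.sphere (0 : E) 1 := by
        rw [mem_sphere_zero_iff_norm, norm_smul, norm_inv, norm_norm, inv_mul_cancel₀ hx0.ne']
      have h2 : Φ x = ‖x‖ * Φ (‖x‖⁻¹ • x) := by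
        rw [hh, abs_of_pos (inv_pos.2 hx0), ← mul_assoc, mul_inv_cancel₀ hx0.ne', one_mul]
      have h3 : Φ a ≤ Φ (‖x‖⁻¹ • x) := hamin h1
      have h4 : Φ (‖x‖⁻¹ • x) ≤ Φ b := hbmax h1
      rw [h2]
      constructor
      · rw [mul_comm]
        exact mul_le_mul_of_nonneg_left h3 hx0.le
      · rw [mul_comm]
        exact mul_le_mul_of_nonneg_right h4 hx0.le

theorem det_csmul {E : Type} [NormedAddCommGroup E] [NormedSpace ℝ E] [FiniteDimensional ℝ E]
    (r : ℝ) (A : E →L[ℝ] E) : (r • A).det = r ^ Module.finrank ℝ E * A.det :=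
  LinearMap.det_smul r (A : E →ₗ[ℝ] E)

/-- SCAL -/
theorem scal (hlim : LIMStmt) : SCALStmt := by
  intro E _ _ _ _ _ μ _ Φ Q G w L c d S hc hd hΦc hΦp hΦh hQ hG hQ0 hG0 hQG hQx hS hw hΦG
    hnull i
  obtain ⟨c0, C0, hc0, hC0, hb⟩ := hom_bounds hΦc hΦp hΦh
  set G1 : E → E := fun x => d⁻¹ • G x with hG1
  have hd' : 0 < d⁻¹ := inv_pos.2 hd
  have hΦG1 : ∀ x, Φ (G1 x) = w x := fun x => by
    rw [hG1]
    change Φ (d⁻¹ • G x) = w x
    rw [hΦh, hΦG, abs_of_pos hd']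
    field_simp
  set g : E → ℝ := fun z => ‖z‖ ^ (2 * i) * max 0 (1 - Φ z) with hgdef
  have hg : Continuous g := by
    rw [hgdef]
    fun_prop
  have hgs : HasCompactSupport g := by
    refine HasCompactSupport.intro (isCompact_closedBall (0 : E) (1 / c0)) fun x hx => ?_
    rw [mem_closedBall_zero_iff, not_le, div_lt_iff₀ hc0] at hx
    have h1 : 1 - Φ x ≤ 0 := by
      have := (hb x).1
      linarith
    change ‖x‖ ^ (2 * i) * max 0 (1 - Φ x) = 0
    rw [max_eq_left h1, mul_zero]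
  have hQ' : LipschitzWith (L + ‖d⁻¹‖₊ * L) Q := hQ.weaken (le_add_of_nonneg_right zero_le)
  have hG1L : LipschitzWith (L + ‖d⁻¹‖₊ * L) G1 := by
    have h1 : LipschitzWith (‖d⁻¹‖₊ * L) G1 := by
      refine LipschitzWith.of_dist_le_mul fun x y => ?_
      rw [hG1]
      change dist (d⁻¹ • G x) (d⁻¹ • G y) ≤ _
      rw [dist_smul₀, NNReal.coe_mul, coe_nnnorm, mul_assoc]
      exact mul_le_mul_of_nonneg_left (hG.dist_le_mul x y) (norm_nonneg _)
    exact h1.weaken (le_add_of_nonneg_left zero_le)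
  have hc' : 0 < min c (c / C0) := lt_min hc (div_pos hc hC0)
  have hres := hlim E μ Q G1 (L + ‖d⁻¹‖₊ * L) (min c (c / C0)) S hc' hQ' hG1L hQ0
    (by rw [hG1]; change d⁻¹ • G 0 = 0; rw [hG0, smul_zero])
    (fun x => by
      rw [hG1]
      change inner ℝ (Q x) (d⁻¹ • G x) = 0
      rw [inner_smul_right, hQG, mul_zero])
    (fun x => (mul_le_mul_of_nonneg_right (min_le_left _ _) (by positivity)).trans (hQx x))
    hS
    (fun x hx => by
      have h1 := hw x hx
      have h2 := (hb (G1 x)).2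
      rw [hΦG1] at h2
      have h3 : c / C0 * ‖x‖ ≤ ‖G1 x‖ := by
        rw [div_mul_eq_mul_div, div_le_iff₀ hC0]
        linarith
      exact (mul_le_mul_of_nonneg_right (min_le_right _ _) (norm_nonneg _)).trans h3)
    (fun ε hε => by
      have h1 : (fun x => ε • Q x + G1 x) '' Sᶜ
          = d⁻¹ • ((fun x => (ε * d) • Q x + G x) '' Sᶜ) := by
        rw [← Set.image_smul, Set.image_image]
        refine Set.image_congr fun x _ => ?_
        rw [smul_add, smul_smul]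
        congr 2
        field_simp
      rw [h1, Measure.addHaar_smul, hnull (ε * d) (mul_pos hε hd), mul_zero])
    g hg hgs
  have hpt : ∀ x, ‖G x‖ ^ (2 * i) * max 0 (1 - w x) * (fderiv ℝ G x).det
      = d ^ (Module.finrank ℝ E + 2 * i) * (g (G1 x) * (fderiv ℝ G1 x).det) := by
    intro x
    have h1 : fderiv ℝ G1 x = d⁻¹ • fderiv ℝ G x := by
      have h2 : fderiv ℝ (d⁻¹ • G) = d⁻¹ • fderiv ℝ G := fderiv_const_smul_field d⁻¹
      exact congrFun h2 x
    have h3 : g (G1 x) = (d⁻¹) ^ (2 * i) * ‖G x‖ ^ (2 * i) * max 0 (1 - w x) := by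
      change ‖G1 x‖ ^ (2 * i) * max 0 (1 - Φ (G1 x)) = _
      rw [hΦG1]
      have h4 : ‖G1 x‖ = d⁻¹ * ‖G x‖ := by
        change ‖d⁻¹ • G x‖ = _
        rw [norm_smul, Real.norm_of_nonneg hd'.le]
      rw [h4, mul_pow]
    rw [h1, det_csmul, h3, pow_add]
    have h5 : d ^ Module.finrank ℝ E * (d⁻¹) ^ Module.finrank ℝ E = 1 := by
      rw [← mul_pow, mul_inv_cancel₀ hd.ne', one_pow]
    have h6 : d ^ (2 * i) * (d⁻¹) ^ (2 * i) = 1 := by
      rw [← mul_pow, mul_inv_cancel₀ hd.ne', one_pow]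
    calc _ = (d ^ Module.finrank ℝ E * (d⁻¹) ^ Module.finrank ℝ E) *
          (d ^ (2 * i) * (d⁻¹) ^ (2 * i)) *
          (‖G x‖ ^ (2 * i) * max 0 (1 - w x) * (fderiv ℝ G x).det) := by
          rw [h5, h6, one_mul, one_mul]
      _ = _ := by ring
  simp_rw [hpt]
  rw [integral_const_mul, hres]

end Pool.Agent.BAN.H7
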